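import Pool.Agent.K.MP_e40812_co.C0

/-!
A necessary condition on the face vector of a convex polyhedron: choose `k n ≤ p_n` faces with
`n` sides, at least three faces in all; then
`∑ n k_n + 24 ≤ 12 ∑ k_n + ∑ min (⌊n/2⌋, 3) (p_n - k_n)`.
-/

namespace Pool.Agent.Results.MP_e40812_co.FacesTwelve

open Pool.Agent.P.MP_e40812_co

theorem result (P : Set (EuclideanSpace ℝ (Fin 3))) (hP : IsPolyhedron P) (k : ℕ → ℕ)
    (hk : ∀ n, k n ≤ faceCount P n) (h3 : 3 ≤ ∑ᶠ n, k n) :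
    ∑ᶠ n, n * k n + 24 ≤
      12 * ∑ᶠ n, k n + ∑ᶠ n, min (n / 2) 3 * (faceCount P n - k n) := by
  classical
  obtain ⟨X, hX, hF, K, hK, hc, h⟩ := transfer hP k hk
  have h1 := (h id).1
  have h2 := (h fun n => min (n / 2) 3).2
  have h4 := comb_M finrank_three hX hF hK (hc ▸ h3)
  simp only [id] at h1
  rw [← h1, ← h2, ← hc]
  convert h4

end Pool.Agent.Results.MP_e40812_co.FacesTwelve
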