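import Pool.Agent.K.MP_e40812_co.C3

/-!
Recognising the face vectors of convex polyhedra, written in binary, is NEXP-complete, and it stays
so on every polynomial-time set `S` of sequences that contains the sequences of length `K` with
`∑ (6 - n) p_n = 12`.  The list `p` is the sequence `p_3, p_4, ...`.
-/

open Pool.Agent.P.MP_e40812_co N68a2faeb in
theorem Pool.Agent.Results.MP_e40812_co.NEXPComplete.result :
    ∃ K : ℕ, ∀ S : List ℕ → Bool, IsPolyTime S →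
      (∀ p : List ℕ, p.length = K →
        ∑ i ∈ Finset.range K, (6 - (i + 3 : ℤ)) * (p.getD i 0 : ℕ) = 12 → S p = true) →
      ∃ L : DecisionProblem,
        (∀ x, L x = true ↔ ∃ p : List ℕ, x = N487b59b3.bitEncode p ∧ S p = true ∧
          ∃ P, IsPolyhedron P ∧ ∀ i, faceCount P (i + 3) = p.getD i 0) ∧
        L ∈ NEXP ∧
        ∀ M ∈ NEXP, ∃ f : List Bool → List Bool, IsPolyTime f ∧ ∀ x, M x = L (f x) := by
  obtain ⟨U, hU, h⟩ := exists_universal
  obtain ⟨K, g, hg, hK⟩ := succinct hU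
  refine ⟨K, fun S hS hKS => ?_⟩
  obtain ⟨L, hL, k⟩ := St.mem_nexp (Pool.Agent.Lib.PolyTime.PT.of_isPolyTime hS)
  refine ⟨L, k, hL, fun M hM => ?_⟩
  obtain ⟨c, hc, h⟩ := h M hM
  refine ⟨fun x => N487b59b3.bitEncode (g (c x)), (hg.comp hc).bitEncode.isPolyTime, fun x => ?_⟩
  obtain ⟨h1, h2, h3⟩ := hK (c x)
  rw [Bool.eq_iff_iff, h x, k, ← h3]
  refine ⟨fun r => ⟨_, rfl, hKS _ h1 (h1 ▸ h2), r⟩, fun ⟨p, e, _, r⟩ => ?_⟩
  rwa [N487b59b3.bitEncode_injective e]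

open Pool.Agent.P.MP_e40812_co N68a2faeb in
/-- Consequence: no language in `NP` or in `coNP` recognises these face vectors. -/
theorem Pool.Agent.Results.MP_e40812_co.NEXPComplete.notNP :
    ∃ K : ℕ, ∀ L : DecisionProblem, L ∈ NP ∨ L ∈ coNP → ¬ ∀ p : List ℕ, p.length = K →
      ∑ i ∈ Finset.range K, (6 - (i + 3 : ℤ)) * (p.getD i 0 : ℕ) = 12 →
      (L (N487b59b3.bitEncode p) = true ↔
        ∃ P, IsPolyhedron P ∧ ∀ i, faceCount P (i + 3) = p.getD i 0) := by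
  obtain ⟨U, hU, h⟩ := exists_diagonal
  obtain ⟨K, g, hg, hK⟩ := succinct hU
  refine ⟨K, fun L hL k => h g hg L hL fun m => ?_⟩
  obtain ⟨h1, h2, h3⟩ := hK m
  refine (k (g m) h1 ?_).trans h3
  rw [← h1]
  exact h2
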