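import Pool.Agent.K.MP_e40812_co.C4

/-!
Recognising the face vectors `(p_3, p_4, ...)` of convex polyhedra is strongly NP-hard, already
for sequences with `∑ (6 - n) p_n = 12`.  The list `f x` is the sequence `p_3, p_4, ...`.
-/

open Pool.Agent.P.MP_e40812_co N68a2faeb in
theorem Pool.Agent.Results.MP_e40812_co.NPHard.result :
    ∀ L ∈ NP, ∃ (f : List Bool → List ℕ) (q : Polynomial ℕ), IsPolyTime f ∧ ∀ x,
      (f x).sum ≤ q.eval x.length ∧
      ∑ i ∈ Finset.range (f x).length, (6 - (i + 3 : ℤ)) * ((f x).getD i 0 : ℕ) = 12 ∧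
      (L x = true ↔ ∃ P, IsPolyhedron P ∧ ∀ i, faceCount P (i + 3) = (f x).getD i 0) :=
  Pool.Agent.P.MP_e40812_co.hard
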