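import Pool.Agent.K.MP_e40812_co.C5

/-!
The face vectors `(p_3, ..., p_24)` of convex polyhedra whose faces have at most 24 sides are not
a finite Boolean combination of polynomial inequalities, polynomial congruences, convex conditions
and semilinear conditions.
-/

open Pool.Agent.P.MP_e40812_co in
theorem Pool.Agent.Results.MP_e40812_co.NoSystem.result : ¬ Explicit Real24 :=
  Pool.Agent.P.MP_e40812_co.not_explicit
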